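import Pool.Agent.W893.SY.Net

set_option autoImplicit false

/-! Definitions: 3-CNF satisfiability, renaming of variables, symmetric networks and circuits. -/

namespace Pool.Agent.J4H64.SS

open Finset Pool.Agent.W893.SY

/-- Clauses of at most three literals on `n` variables. -/
abbrev Cl (n : ℕ) : Type := {c : Finset (Fin n × Bool) // c.card ≤ 3}

/-- A set of clauses, given by its indicator vector, is satisfiable. -/
def Sat {n : ℕ} (x : Cl n → Bool) : Prop :=
  ∃ a : Fin n → Bool, ∀ c : Cl n, x c = true → ∃ l ∈ c.1, a l.1 = l.2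

/-- Renaming the variables of a clause. -/
def ren {n : ℕ} (σ : Equiv.Perm (Fin n)) (c : Cl n) : Cl n :=
  ⟨c.1.map (σ.toEmbedding.prodMap (Function.Embedding.refl Bool)), by
    rw [card_map]; exact c.2⟩

theorem mem_ren {n : ℕ} (σ : Equiv.Perm (Fin n)) (c : Cl n) (v : Fin n) (b : Bool) :
    (σ v, b) ∈ (ren σ c).1 ↔ (v, b) ∈ c.1 := by
  simp only [ren, mem_map, Function.Embedding.coe_prodMap, Prod.exists, Prod.map_apply,
    Equiv.coe_toEmbedding, Function.Embedding.refl_apply, Prod.mk.injEq,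
    EmbeddingLike.apply_eq_iff_eq]
  constructor
  · rintro ⟨v', b', h, rfl, rfl⟩
    exact h
  · intro h
    exact ⟨v, b, h, rfl, rfl⟩

theorem mem_ren' {n : ℕ} (σ : Equiv.Perm (Fin n)) (c : Cl n) (l : Fin n × Bool) :
    l ∈ (ren σ c).1 ↔ (σ.symm l.1, l.2) ∈ c.1 := by
  have := mem_ren σ c (σ.symm l.1) l.2
  rw [Equiv.apply_symm_apply] at this
  exact this

theorem ren_one {n : ℕ} (c : Cl n) : ren 1 c = c := by
  apply Subtype.ext
  ext l
  rw [mem_ren']
  rfl

theorem ren_mul {n : ℕ} (σ τ : Equiv.Perm (Fin n)) (c : Cl n) :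
    ren (σ * τ) c = ren σ (ren τ c) := by
  apply Subtype.ext
  ext l
  rw [mem_ren', mem_ren', mem_ren']
  rfl

/-- The network is symmetric under all even permutations of the variables inside the blocks. -/
def BSym {m n s : ℕ} {R : Type} (e : Fin m × Fin 5 ↪ Fin n) (C : Net (Cl n) R s) : Prop :=
  ∀ γ : Fin m → Equiv.Perm (Fin 5), (∀ i, γ i ∈ alternatingGroup (Fin 5)) →
    ∃ α, C.IsAut (ren (blockPerm e γ)) α

/-- A circuit in the format of the frozen statement: `m` gates, of kind OR (`0`), AND (`1`) or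
NOT (`2`), with their sets of predecessors among the inputs `I` and among the gates. -/
structure Circ (I : Type) where
  m : ℕ
  kind : Fin m → Fin 3
  predIn : Fin m → Finset I
  predG : Fin m → Finset (Fin m)
  o : Fin m
  acyclic : ∀ j : Fin m, ∀ k ∈ predG j, k < j

namespace Circ

variable {I : Type} (C : Circ I)

/-- `v` is the valuation of the gates on the input `x`. -/
def Val (x : I → Bool) (v : Fin C.m → Bool) : Prop :=
  ∀ j : Fin C.m,
    (C.kind j = 0 → (v j = true ↔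
      ((∃ i ∈ C.predIn j, x i = true) ∨ ∃ k ∈ C.predG j, v k = true))) ∧
    (C.kind j = 1 → (v j = true ↔
      ((∀ i ∈ C.predIn j, x i = true) ∧ ∀ k ∈ C.predG j, v k = true))) ∧
    (C.kind j = 2 → (v j = true ↔
      ¬ ((∀ i ∈ C.predIn j, x i = true) ∧ ∀ k ∈ C.predG j, v k = true)))

/-- the circuit accepts the input -/
def Acc (x : I → Bool) : Prop := ∃ v : Fin C.m → Bool, C.Val x v ∧ v C.o = true

/-- `α` is an automorphism of the circuit over the permutation `σ` of the inputs. -/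
def IsAut (σ : Equiv.Perm I) (α : Equiv.Perm (Fin C.m)) : Prop :=
  (∀ j, C.kind (α j) = C.kind j ∧ C.predIn (α j) = (C.predIn j).map σ.toEmbedding ∧
    C.predG (α j) = (C.predG j).map α.toEmbedding) ∧ α C.o = C.o

/-- NOT gates have one predecessor and every gate has at least one. -/
def WF (C : Circ I) : Prop :=
  (∀ j, C.kind j = 2 → (C.predIn j).card + (C.predG j).card = 1) ∧
    ∀ j, 1 ≤ (C.predIn j).card + (C.predG j).card

/-- the depth is at most `d` -/
def Depth (C : Circ I) (d : ℕ) : Prop :=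
  ∃ lvl : Fin C.m → ℕ, (∀ j, 1 ≤ lvl j) ∧ (∀ j, ∀ k ∈ C.predG j, lvl k + 1 ≤ lvl j) ∧
    lvl C.o ≤ d

end Circ

/-- renaming as a permutation of the clauses -/
def renP {n : ℕ} (σ : Equiv.Perm (Fin n)) : Equiv.Perm (Cl n) where
  toFun := ren σ
  invFun := ren σ⁻¹
  left_inv c := by rw [← ren_mul, inv_mul_cancel, ren_one]
  right_inv c := by rw [← ren_mul, mul_inv_cancel, ren_one]

/-- The circuit is symmetric under all even permutations of the variables inside the blocks. -/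
def CSym {m n : ℕ} (e : Fin m × Fin 5 ↪ Fin n) (C : Circ (Cl n)) : Prop :=
  ∀ γ : Fin m → Equiv.Perm (Fin 5), (∀ i, γ i ∈ alternatingGroup (Fin 5)) →
    ∃ α, C.IsAut (renP (blockPerm e γ)) α

/-- Hypothesis H, with circuits as a structure. -/
def HypH : Prop :=
  ∃ δ : ℝ, 0 < δ ∧ ∀ d N₀ : ℕ, ∃ n : ℕ, N₀ ≤ n ∧ 1 ≤ n ∧
    ¬ ∃ C : Circ (Cl n), C.WF ∧ C.Depth d ∧
      ((Fintype.card (Cl n) : ℝ) + (C.m : ℝ) ≤ (2 : ℝ) ^ (δ * (n : ℝ))) ∧
      ∀ x, C.Acc x ↔ Sat x

/-- Hypothesis H for circuits which are symmetric on `⌈ε n⌉` blocks of five variables, with the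
constant `δ`. -/
def SymHyp (ε δ : ℝ) : Prop :=
  ∀ d N₀ : ℕ, ∃ n : ℕ, N₀ ≤ n ∧ 1 ≤ n ∧ ∃ e : Fin ⌈ε * n⌉₊ × Fin 5 ↪ Fin n,
    ¬ ∃ C : Circ (Cl n), C.WF ∧ C.Depth d ∧ CSym e C ∧
      ((Fintype.card (Cl n) : ℝ) + (C.m : ℝ) ≤ (2 : ℝ) ^ (δ * (n : ℝ))) ∧
      ∀ x, C.Acc x ↔ Sat x

end Pool.Agent.J4H64.SS
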