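import Pool.Agent.J4H64.SS.Sat

set_option autoImplicit false

/-! Circuits with AND, OR, NOT gates (in the format of the frozen statement S15263) as networks. -/

namespace Pool.Agent.J4H64.SS

open Finset Pool.Agent.W893.SY

namespace Circ

variable {I : Type} (C : Circ I)

variable [Fintype I]

/-- the gate functions -/
def fn (k : Fin 3) (M : Multiset (ℕ × Bool)) : Bool :=
  if k = 0 then orFn M else if k = 1 then andFn M else !(andFn M)

/-- the wires -/
noncomputable def wires (j : Fin C.m) : Multiset (ℕ × Fin (Fintype.card I + C.m)) :=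
  (C.predIn j).val.map (fun i => (0, Fin.castAdd C.m (Fintype.equivFin I i))) +
    (C.predG j).val.map (fun k => (0, Fin.natAdd (Fintype.card I) k))

/-- the circuit as a network -/
noncomputable def net : Net I Bool (Fintype.card I + C.m) where
  gate g := Sum.elim (fun i => Sum.inl ((Fintype.equivFin I).symm i))
    (fun j => Sum.inr (C.wires j, fn (C.kind j))) (finSumFinEquiv.symm g)
  acyclic := by
    intro g w f h p hp
    obtain ⟨t, rfl⟩ := finSumFinEquiv.surjective g
    rw [Equiv.symm_apply_apply] at h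
    rcases t with i | j
    · simp at h
    · simp only [Sum.elim_inr, Sum.inr.injEq, Prod.mk.injEq] at h
      obtain ⟨rfl, rfl⟩ := h
      rw [finSumFinEquiv_apply_right]
      simp only [wires, Multiset.mem_add, Multiset.mem_map] at hp
      rcases hp with ⟨i, _, rfl⟩ | ⟨k, hk, rfl⟩
      · simp only [Fin.lt_def, Fin.val_castAdd, Fin.val_natAdd]
        have := (Fintype.equivFin I i).2
        omega
      · have := C.acyclic j k hk
        simp only [Fin.lt_def, Fin.val_natAdd] at this ⊢
        omega
  out := Fin.natAdd (Fintype.card I) C.o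

theorem net_gate_in (i : I) :
    C.net.gate (Fin.castAdd C.m (Fintype.equivFin I i)) = Sum.inl i := by
  simp [net]

theorem net_gate_out (j : Fin C.m) :
    C.net.gate (Fin.natAdd (Fintype.card I) j) = Sum.inr (C.wires j, fn (C.kind j)) := by
  simp [net]

theorem net_val (x : I → Bool) (v : Fin C.m → Bool) (hv : C.Val x v) (j : Fin C.m) :
    C.net.val x (Fin.natAdd (Fintype.card I) j) = v j := by
  induction j using WellFoundedLT.induction with
  | ind j ih =>
    rw [C.net.val_inr x (C.net_gate_out j)]
    have hw : (C.wires j).map (fun p => (p.1, C.net.val x p.2)) =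
        (C.predIn j).val.map (fun i => (0, x i)) + (C.predG j).val.map (fun k => (0, v k)) := by
      unfold wires
      rw [Multiset.map_add, Multiset.map_map, Multiset.map_map]
      congr 1
      · apply Multiset.map_congr rfl
        intro i _
        simp only [Function.comp_apply, C.net.val_inl x (C.net_gate_in i)]
      · apply Multiset.map_congr rfl
        intro k hk
        simp only [Function.comp_apply]
        rw [ih k (C.acyclic j k hk)]
    rw [hw]
    obtain ⟨h0, h1, h2⟩ := hv j
    have hor : orFn ((C.predIn j).val.map (fun i => (0, x i)) +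
        (C.predG j).val.map (fun k => (0, v k))) = true ↔
        ((∃ i ∈ C.predIn j, x i = true) ∨ ∃ k ∈ C.predG j, v k = true) := by
      unfold orFn
      rw [decide_eq_true_iff, Multiset.map_add, Multiset.mem_add, Multiset.map_map,
        Multiset.map_map, Multiset.mem_map, Multiset.mem_map]
      rfl
    have hand : andFn ((C.predIn j).val.map (fun i => (0, x i)) +
        (C.predG j).val.map (fun k => (0, v k))) = true ↔
        ((∀ i ∈ C.predIn j, x i = true) ∧ ∀ k ∈ C.predG j, v k = true) := by
      unfold andFn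
      rw [decide_eq_true_iff, Multiset.map_add, Multiset.mem_add, Multiset.map_map,
        Multiset.map_map, Multiset.mem_map, Multiset.mem_map]
      simp only [Function.comp_apply, not_or, not_exists, not_and, Bool.not_eq_false,
        Finset.mem_val]
    have h3 : ∀ k : Fin 3, k = 0 ∨ k = 1 ∨ k = 2 := by decide
    rw [Bool.eq_iff_iff]
    rcases h3 (C.kind j) with hk | hk | hk
    · rw [h0 hk, ← hor, hk]
      simp [fn]
    · rw [h1 hk, ← hand, hk]
      simp [fn]
    · rw [h2 hk, ← hand, hk]
      simp [fn]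

theorem exists_val (x : I → Bool) : C.Val x (fun j => C.net.val x (Fin.natAdd _ j)) := by
  intro j
  have hw : (C.wires j).map (fun p => (p.1, C.net.val x p.2)) =
      (C.predIn j).val.map (fun i => (0, x i)) +
        (C.predG j).val.map (fun k => (0, C.net.val x (Fin.natAdd (Fintype.card I) k))) := by
    unfold wires
    rw [Multiset.map_add, Multiset.map_map, Multiset.map_map]
    congr 1
    apply Multiset.map_congr rfl
    intro i _
    simp only [Function.comp_apply, C.net.val_inl x (C.net_gate_in i)]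
  have hv := C.net.val_inr x (C.net_gate_out j)
  rw [hw] at hv
  have hor : orFn ((C.predIn j).val.map (fun i => (0, x i)) +
      (C.predG j).val.map (fun k => (0, C.net.val x (Fin.natAdd (Fintype.card I) k)))) = true ↔
      ((∃ i ∈ C.predIn j, x i = true) ∨
        ∃ k ∈ C.predG j, C.net.val x (Fin.natAdd (Fintype.card I) k) = true) := by
    unfold orFn
    rw [decide_eq_true_iff, Multiset.map_add, Multiset.mem_add, Multiset.map_map,
      Multiset.map_map, Multiset.mem_map, Multiset.mem_map]
    rfl
  have hand : andFn ((C.predIn j).val.map (fun i => (0, x i)) +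
      (C.predG j).val.map (fun k => (0, C.net.val x (Fin.natAdd (Fintype.card I) k)))) = true ↔
      ((∀ i ∈ C.predIn j, x i = true) ∧
        ∀ k ∈ C.predG j, C.net.val x (Fin.natAdd (Fintype.card I) k) = true) := by
    unfold andFn
    rw [decide_eq_true_iff, Multiset.map_add, Multiset.mem_add, Multiset.map_map,
      Multiset.map_map, Multiset.mem_map, Multiset.mem_map]
    simp only [Function.comp_apply, not_or, not_exists, not_and, Bool.not_eq_false,
      Finset.mem_val]
  refine ⟨fun hk => ?_, fun hk => ?_, fun hk => ?_⟩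
  · rw [← hor]
    show C.net.val x _ = true ↔ _
    rw [hv, hk]
    simp [fn]
  · rw [← hand]
    show C.net.val x _ = true ↔ _
    rw [hv, hk]
    simp [fn]
  · rw [← hand]
    show C.net.val x _ = true ↔ _
    rw [hv, hk]
    simp [fn]

theorem acc_iff (x : I → Bool) : C.Acc x ↔ C.net.val x C.net.out = true := by
  constructor
  · rintro ⟨v, hv, ho⟩
    show C.net.val x (Fin.natAdd _ C.o) = true
    rw [C.net_val x v hv, ho]
  · intro h
    exact ⟨_, C.exists_val x, h⟩

/-- the automorphism of the network -/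
noncomputable def lift (σ : Equiv.Perm I) (α : Equiv.Perm (Fin C.m)) :
    Equiv.Perm (Fin (Fintype.card I + C.m)) :=
  (finSumFinEquiv.symm.trans (Equiv.sumCongr
    (((Fintype.equivFin I).symm.trans σ).trans (Fintype.equivFin I)) α)).trans finSumFinEquiv

theorem lift_in (σ : Equiv.Perm I) (α : Equiv.Perm (Fin C.m)) (i : I) :
    C.lift σ α (Fin.castAdd C.m (Fintype.equivFin I i)) =
      Fin.castAdd C.m (Fintype.equivFin I (σ i)) := by
  simp [lift]

theorem lift_out (σ : Equiv.Perm I) (α : Equiv.Perm (Fin C.m)) (j : Fin C.m) :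
    C.lift σ α (Fin.natAdd (Fintype.card I) j) = Fin.natAdd (Fintype.card I) (α j) := by
  simp [lift]

theorem net_aut {σ : Equiv.Perm I} {α : Equiv.Perm (Fin C.m)} (h : C.IsAut σ α) :
    C.net.IsAut σ (C.lift σ α) := by
  refine ⟨fun g => ?_, ?_⟩
  · obtain ⟨t, rfl⟩ := finSumFinEquiv.surjective g
    rcases t with i | j
    · obtain ⟨i, rfl⟩ := (Fintype.equivFin I).surjective i
      rw [finSumFinEquiv_apply_left, C.lift_in, C.net_gate_in, C.net_gate_in]
      rfl
    · rw [finSumFinEquiv_apply_right, C.lift_out, C.net_gate_out, C.net_gate_out]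
      obtain ⟨h1, h2, h3⟩ := h.1 j
      simp only [Sum.map_inr, Prod.map_apply, id, Sum.inr.injEq, Prod.mk.injEq]
      refine ⟨?_, by rw [h1]⟩
      unfold wires
      rw [h2, h3, Finset.map_val, Finset.map_val, Multiset.map_add, Multiset.map_map,
        Multiset.map_map, Multiset.map_map, Multiset.map_map]
      congr 1
      · apply Multiset.map_congr rfl
        intro i _
        simp only [Function.comp_apply, Prod.map_apply, id, C.lift_in]
        rfl
      · apply Multiset.map_congr rfl
        intro k _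
        simp only [Function.comp_apply, Prod.map_apply, id, C.lift_out]
        rfl
  · show C.lift σ α (Fin.natAdd _ C.o) = Fin.natAdd _ C.o
    rw [C.lift_out, h.2]

end Circ

theorem lower_circ : ∃ K : ℕ, 0 < K ∧ ∀ (n r : ℕ) (e : Fin r × Fin 5 ↪ Fin n)
    (C : Circ (Cl n)), CSym e C → (∀ x, C.Acc x ↔ Sat x) →
    2 ^ (r / K) ≤ Fintype.card (Cl n) + C.m := by
  obtain ⟨K, hK, h⟩ := lower
  refine ⟨K, hK, fun n r e C hsym hC => ?_⟩
  refine h n r _ Bool id {true} e C.net ?_ ?_
  · intro γ hγ
    obtain ⟨α, hα⟩ := hsym γ hγ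
    exact ⟨_, C.net_aut hα⟩
  · intro x
    rw [← hC x, C.acc_iff]
    rfl

/-- Hypothesis H for circuits of any depth which are symmetric on `ε n` blocks. -/
theorem hyp (ε : ℝ) (hε : 0 < ε) : ∃ δ : ℝ, 0 < δ ∧ ∃ N₀ : ℕ, ∀ n : ℕ, N₀ ≤ n →
    ∀ (r : ℕ) (e : Fin r × Fin 5 ↪ Fin n), ε * n ≤ r → ∀ C : Circ (Cl n), CSym e C →
      (∀ x, C.Acc x ↔ Sat x) →
      (2 : ℝ) ^ (δ * (n : ℝ)) < (Fintype.card (Cl n) : ℝ) + (C.m : ℝ) := by
  obtain ⟨K, hK, h⟩ := lower_circ
  have hK' : (0 : ℝ) < K := by exact_mod_cast hK
  refine ⟨ε / (2 * K), by positivity, ⌈2 * K / ε⌉₊ + 1, fun n hn r e hr C hsym hC => ?_⟩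
  have h1 := h n r e C hsym hC
  have h2 : (2 : ℝ) ^ ((r / K : ℕ) : ℝ) ≤ (Fintype.card (Cl n) : ℝ) + (C.m : ℝ) := by
    rw [Real.rpow_natCast]
    exact_mod_cast h1
  refine lt_of_lt_of_le ?_ h2
  apply Real.rpow_lt_rpow_of_exponent_lt (by norm_num)
  have h3 : (r : ℝ) / K < ((r / K : ℕ) : ℝ) + 1 := by
    have := Nat.lt_div_mul_add (a := r) hK
    rw [div_lt_iff₀ hK']
    have h4 : (r : ℝ) < ((r / K : ℕ) : ℝ) * K + K := by exact_mod_cast this
    linarith
  have h4 : 2 * K / ε < n := by
    have h5 : (⌈2 * K / ε⌉₊ : ℝ) + 1 ≤ n := by exact_mod_cast hn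
    have h6 := Nat.le_ceil (2 * (K : ℝ) / ε)
    linarith
  have h5 : 2 * K < ε * n := by
    rw [div_lt_iff₀ hε] at h4
    linarith
  have h6 : ε * n / K ≤ (r : ℝ) / K := by gcongr
  have h7 : ε / (2 * K) * n = ε * n / K / 2 := by field_simp
  have h8 : 2 < ε * n / K := by rw [lt_div_iff₀ hK']; exact h5
  rw [h7]
  linarith

end Pool.Agent.J4H64.SS
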