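import Pool.Agent.J4H64.SS.Up

set_option autoImplicit false

/-! Hypothesis H and its locally symmetric form. -/

namespace Pool.Agent.J4H64.SS

open Finset Pool.Agent.W893.SY

theorem sat_ren {n : ℕ} (σ : Equiv.Perm (Fin n)) (x : Cl n → Bool) (h : Sat x) :
    Sat (fun c => x (ren σ c)) := by
  obtain ⟨a, ha⟩ := h
  refine ⟨fun v => a (σ v), fun c hc => ?_⟩
  obtain ⟨l, hl, hl'⟩ := ha (ren σ c) hc
  rw [mem_ren'] at hl
  refine ⟨_, hl, ?_⟩
  simp only [Equiv.apply_symm_apply]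
  exact hl'

theorem sat_ren_iff {n : ℕ} (σ : Equiv.Perm (Fin n)) (x : Cl n → Bool) :
    Sat (fun c => x (ren σ c)) ↔ Sat x := by
  refine ⟨fun h => ?_, sat_ren σ x⟩
  have h1 := sat_ren σ⁻¹ _ h
  have h2 : (fun c => x (ren σ (ren σ⁻¹ c))) = x := by
    funext c
    rw [← ren_mul, mul_inv_cancel, ren_one]
  rwa [h2] at h1

theorem card_A5 : Fintype.card A5 = 60 := by
  have h := two_mul_nat_card_alternatingGroup (α := Fin 5)
  have h2 : Nat.card (Equiv.Perm (Fin 5)) = 120 := by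
    rw [Nat.card_eq_fintype_card, Fintype.card_perm, Fintype.card_fin]; rfl
  rw [h2] at h
  rw [← Nat.card_eq_fintype_card]
  have h3 : Nat.card A5 = Nat.card (alternatingGroup (Fin 5)) := rfl
  omega

/-- making a circuit for satisfiability symmetric -/
theorem make_sym {n r d : ℕ} (e : Fin r × Fin 5 ↪ Fin n) (C : Circ (Cl n)) (hwf : C.WF)
    (hd : C.Depth d) (hC : ∀ x, C.Acc x ↔ Sat x) :
    ∃ C' : Circ (Cl n), C'.WF ∧ C'.Depth (d + 1) ∧ CSym e C' ∧ C'.m = C.m * 60 ^ r + 1 ∧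
      ∀ x, C'.Acc x ↔ Sat x := by
  let act : (Fin r → A5) → Equiv.Perm (Cl n) :=
    fun γ => renP (blockPerm e (fun i => (γ i : Equiv.Perm (Fin 5))))
  have hmul : ∀ a b, act (a * b) = act a * act b := by
    intro a b
    refine Equiv.ext fun c => ?_
    exact congrFun (actC_mul e a b) c
  refine ⟨Circ.sym act C, Circ.sym_wf act C hwf, Circ.sym_depth act C hd, ?_, ?_, ?_⟩
  · intro γ hγ
    exact ⟨_, Circ.sym_aut act C hmul (fun i => ⟨γ i, hγ i⟩)⟩
  · show C.m * Fintype.card (Fin r → A5) + 1 = _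
    rw [Fintype.card_fun, card_A5, Fintype.card_fin]
  · intro x
    rw [Circ.sym_acc]
    constructor
    · rintro ⟨a, ha⟩
      exact (sat_ren_iff _ x).1 ((hC _).1 ha)
    · intro h
      exact ⟨1, (hC _).2 ((sat_ren_iff _ x).2 h)⟩

theorem logb60 : Real.logb 2 60 < 6 := by
  rw [Real.logb_lt_iff_lt_rpow (by norm_num) (by norm_num)]
  norm_num

theorem hyp_iff_sym : HypH ↔ ∃ ε δ : ℝ, 0 < ε ∧ ε * Real.logb 2 60 < δ ∧ SymHyp ε δ := by
  constructor
  · rintro ⟨δ, hδ, h⟩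
    set ε : ℝ := min (δ / 12) (1 / 10) with hε
    have hε0 : 0 < ε := lt_min (by positivity) (by norm_num)
    have hε1 : ε ≤ δ / 12 := min_le_left _ _
    have hε2 : ε ≤ 1 / 10 := min_le_right _ _
    refine ⟨ε, δ, hε0, ?_, ?_⟩
    · have := logb60
      nlinarith
    · intro d N₀
      obtain ⟨n, hn, hn1, hC⟩ := h d (max N₀ 10)
      have hn10 : 10 ≤ n := (le_max_right _ _).trans hn
      have hnR : (10 : ℝ) ≤ n := by exact_mod_cast hn10
      have hle : ⌈ε * n⌉₊ * 5 ≤ n := by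
        have h1 : (⌈ε * n⌉₊ : ℝ) < ε * n + 1 := Nat.ceil_lt_add_one (by positivity)
        have h2 : (⌈ε * n⌉₊ : ℝ) * 5 ≤ n := by nlinarith
        exact_mod_cast h2
      obtain ⟨e⟩ : Nonempty (Fin ⌈ε * n⌉₊ × Fin 5 ↪ Fin n) := by
        apply Function.Embedding.nonempty_of_card_le
        simpa using hle
      exact ⟨n, (le_max_left _ _).trans hn, hn1, e, fun ⟨C, h1, h2, _, h4, h5⟩ =>
        hC ⟨C, h1, h2, h4, h5⟩⟩
  · rintro ⟨ε, δ, hε, hδ, h⟩
    set δ' : ℝ := (δ - ε * Real.logb 2 60) / 2 with hδ'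
    have hδ'0 : 0 < δ' := by rw [hδ']; linarith
    refine ⟨δ', hδ'0, fun d N₀ => ?_⟩
    obtain ⟨n, hn, hn1, e, hC⟩ := h (d + 1) (max N₀ ⌈7 / δ'⌉₊)
    refine ⟨n, (le_max_left _ _).trans hn, hn1, ?_⟩
    rintro ⟨C, h1, h2, h3, h4⟩
    obtain ⟨C', g1, g2, g3, g4, g5⟩ := make_sym e C h1 h2 h4
    refine hC ⟨C', g1, g2, g3, ?_, g5⟩
    rw [g4]
    have hn7 : 7 ≤ δ' * n := by
      have h5 : (⌈7 / δ'⌉₊ : ℝ) ≤ n := by exact_mod_cast (le_max_right _ _).trans hn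
      have h6 := Nat.le_ceil (7 / δ')
      have h7 : 7 / δ' ≤ n := h6.trans h5
      rw [div_le_iff₀ hδ'0] at h7
      linarith
    set r := ⌈ε * n⌉₊ with hr
    have hr1 : (r : ℝ) ≤ ε * n + 1 := (Nat.ceil_lt_add_one (by positivity)).le
    have hpos : (1 : ℝ) ≤ (60 : ℝ) ^ r := one_le_pow₀ (by norm_num)
    have hc0 : (0 : ℝ) ≤ Fintype.card (Cl n) := Nat.cast_nonneg _
    have hm0 : (0 : ℝ) ≤ C.m := Nat.cast_nonneg _
    have hX : (1 : ℝ) ≤ (2 : ℝ) ^ (δ' * n) := Real.one_le_rpow (by norm_num) (by linarith)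
    have e1 : (Fintype.card (Cl n) : ℝ) + ((C.m * 60 ^ r + 1 : ℕ) : ℝ) ≤
        (60 : ℝ) ^ r * (2 : ℝ) ^ (δ' * n) + 1 := by
      push_cast
      have : (Fintype.card (Cl n) : ℝ) + C.m * 60 ^ r ≤
          60 ^ r * ((Fintype.card (Cl n) : ℝ) + C.m) := by nlinarith
      nlinarith
    have e2 : (60 : ℝ) ^ r ≤ 60 * (2 : ℝ) ^ (ε * Real.logb 2 60 * n) := by
      have h60 : (60 : ℝ) = (2 : ℝ) ^ (Real.logb 2 60) :=
        (Real.rpow_logb (by norm_num) (by norm_num) (by norm_num)).symm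
      calc (60 : ℝ) ^ r = (60 : ℝ) ^ (r : ℝ) := (Real.rpow_natCast _ _).symm
        _ ≤ (60 : ℝ) ^ (ε * n + 1) := Real.rpow_le_rpow_of_exponent_le (by norm_num) hr1
        _ = (60 : ℝ) ^ (ε * n) * 60 := by
            rw [Real.rpow_add (by norm_num), Real.rpow_one]
        _ = 60 * (2 : ℝ) ^ (ε * Real.logb 2 60 * n) := by
            rw [mul_comm]
            congr 1
            conv_lhs => rw [h60]
            rw [← Real.rpow_mul (by norm_num)]
            congr 1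
            ring
    have e3 : (2 : ℝ) ^ (δ * n) = (2 : ℝ) ^ (ε * Real.logb 2 60 * n) *
        ((2 : ℝ) ^ (δ' * n) * (2 : ℝ) ^ (δ' * n)) := by
      rw [← Real.rpow_add (by norm_num), ← Real.rpow_add (by norm_num)]
      congr 1
      rw [hδ']
      ring
    have e4 : (120 : ℝ) ≤ (2 : ℝ) ^ (δ' * n) := by
      calc (120 : ℝ) ≤ (2 : ℝ) ^ (7 : ℝ) := by norm_num
        _ ≤ _ := Real.rpow_le_rpow_of_exponent_le (by norm_num) hn7
    set A := (2 : ℝ) ^ (ε * Real.logb 2 60 * n) with hA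
    have hA0 : 0 < A := by rw [hA]; positivity
    set B := (2 : ℝ) ^ (δ' * n) with hB
    have e5 : (60 : ℝ) ^ r * B + 1 ≤ 2 * ((60 : ℝ) ^ r * B) := by nlinarith
    calc (Fintype.card (Cl n) : ℝ) + ((C.m * 60 ^ r + 1 : ℕ) : ℝ)
        ≤ 2 * ((60 : ℝ) ^ r * B) := e1.trans e5
      _ ≤ 2 * ((60 * A) * B) := by gcongr
      _ = A * (120 * B) := by ring
      _ ≤ A * (B * B) := by gcongr
      _ = (2 : ℝ) ^ (δ * n) := e3.symm

end Pool.Agent.J4H64.SS
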