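import Pool.Agent.J4H64.SS.Defs
import Pool.Agent.W893.SY.Lower
import Pool.Agent.W45.SYExp
import Pool.Agent.W324.SY.Loc
import Pool.Agent.X131.SY.Sup

set_option autoImplicit false

/-! Locally symmetric networks for 3-CNF satisfiability: the lower bound. -/

namespace Pool.Agent.J4H64.SS

open Finset Pool.Agent.W893.SY

/-- The action of even block permutations on clauses. -/
noncomputable def actC {m n : ℕ} (e : Fin m × Fin 5 ↪ Fin n) (γ : Fin m → A5) (c : Cl n) : Cl n :=
  ren (blockPerm e (fun i => (γ i : Equiv.Perm (Fin 5)))) c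

theorem actC_mul {m n : ℕ} (e : Fin m × Fin 5 ↪ Fin n) (a b : Fin m → A5) :
    actC e (a * b) = actC e a ∘ actC e b := by
  funext c
  unfold actC
  have : (fun i => ((a * b) i : Equiv.Perm (Fin 5))) =
      (fun i => (a i : Equiv.Perm (Fin 5))) * (fun i => (b i : Equiv.Perm (Fin 5))) := rfl
  rw [this, blockPerm_mul, ren_mul]
  rfl

theorem actC_one {m n : ℕ} (e : Fin m × Fin 5 ↪ Fin n) : actC e 1 = id := by
  funext c
  unfold actC
  have : (fun i => ((1 : Fin m → A5) i : Equiv.Perm (Fin 5))) = 1 := rfl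
  rw [this, blockPerm_one, ren_one]
  rfl

theorem BSym.act {m n s : ℕ} {R : Type} {e : Fin m × Fin 5 ↪ Fin n} {C : Net (Cl n) R s}
    (h : BSym e C) (γ : Fin m → A5) : ∃ α, C.IsAut (actC e γ) α :=
  h (fun i => (γ i : Equiv.Perm (Fin 5))) (fun i => (γ i).2)

section

variable {N M n : ℕ} (ν : Fin M → Fin 3 → Fin N) (β : Fin M → Fin 3 → ZMod 2)
  (e : Fin (3 * N) × Fin 5 ↪ Fin n)

/-- block numbers of the variables of the linear system -/
def idx : Fin 3 × Fin N ≃ Fin (3 * N) := finProdFinEquiv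

/-- the number of the value `t` -/
def pt (t : ZMod 2) : Fin 5 := if t = 0 then 0 else 1

theorem pt_inj {s t : ZMod 2} (h : pt s = pt t) : s = t := by
  revert s t; decide

theorem tr_pt (s t : ZMod 2) : (tr s 0).1 (pt t) = pt (t + s) := by
  revert s t; decide

theorem tr_inv (s : ZMod 2) : (tr s 0)⁻¹ = tr s 0 := by
  revert s; decide

/-- the Boolean variable saying that `p` has the value `t` -/
def vr (p : Fin 3 × Fin N) (t : ZMod 2) : Fin n := e (idx p, pt t)

theorem vr_inj {p q : Fin 3 × Fin N} {s t : ZMod 2} (h : vr e p s = vr e q t) : p = q ∧ s = t := by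
  unfold vr at h
  have h1 := e.injective h
  rw [Prod.mk.injEq] at h1
  exact ⟨idx.injective h1.1, pt_inj h1.2⟩

/-- some value is taken -/
def cl1 (p : Fin 3 × Fin N) : Cl n :=
  ⟨{(vr e p 0, true), (vr e p 1, true)}, by
    refine (card_insert_le _ _).trans ?_
    simp⟩

/-- the values `a` are not taken at the constraint `c` -/
def cl2 (c : Fin M) (a : Fin 3 → ZMod 2) : Cl n :=
  ⟨univ.image fun i : Fin 3 => (vr e (i, ν c i) (a i), false), by
    refine card_image_le.trans ?_
    simp⟩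

theorem mem_cl1 (p : Fin 3 × Fin N) (l : Fin n × Bool) :
    l ∈ (cl1 e p).1 ↔ ∃ t, l = (vr e p t, true) := by
  simp only [cl1, mem_insert, mem_singleton]
  constructor
  · rintro (h | h)
    · exact ⟨0, h⟩
    · exact ⟨1, h⟩
  · rintro ⟨t, h⟩
    have h01 : ∀ t : ZMod 2, t = 0 ∨ t = 1 := by decide
    rcases h01 t with rfl | rfl
    · exact Or.inl h
    · exact Or.inr h

theorem mem_cl2 (c : Fin M) (a : Fin 3 → ZMod 2) (l : Fin n × Bool) :
    l ∈ (cl2 ν e c a).1 ↔ ∃ i, l = (vr e (i, ν c i) (a i), false) := by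
  simp only [cl2, mem_image, mem_univ, true_and]
  exact ⟨fun ⟨i, h⟩ => ⟨i, h.symm⟩, fun ⟨i, h⟩ => ⟨i, h.symm⟩⟩

/-- the formula of the linear system -/
def InF (c : Cl n) : Prop :=
  (∃ p, c = cl1 e p) ∨ ∃ k a, ∑ i, a i ≠ ∑ i, β k i ∧ c = cl2 ν e k a

open Classical in
/-- its indicator vector -/
noncomputable def fm (c : Cl n) : Bool := decide (InF ν β e c)

theorem vr_move (δ : Fin (3 * N) → A5) (p : Fin 3 × Fin N) (s t : ZMod 2)
    (h : δ (idx p) = tr s 0) :
    blockPerm e (fun i => (δ i : Equiv.Perm (Fin 5))) (vr e p t) = vr e p (t + s) := by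
  unfold vr
  rw [blockPerm_apply, h, tr_pt]

theorem cl1_move (δ : Fin (3 * N) → A5) (p : Fin 3 × Fin N) (s : ZMod 2)
    (h : δ (idx p) = tr s 0) : actC e δ (cl1 e p) = cl1 e p := by
  apply Subtype.ext
  ext ⟨v, b⟩
  have hv : ∀ t, blockPerm e (fun i => (δ i : Equiv.Perm (Fin 5))) (vr e p t) = vr e p (t + s) :=
    fun t => vr_move e δ p s t h
  unfold actC
  rw [mem_ren', mem_cl1, mem_cl1]
  constructor
  · rintro ⟨t, ht⟩
    rw [Prod.mk.injEq, Equiv.symm_apply_eq, hv] at ht
    exact ⟨t + s, by rw [Prod.mk.injEq]; exact ht⟩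
  · rintro ⟨t, ht⟩
    rw [Prod.mk.injEq] at ht
    refine ⟨t + s, ?_⟩
    rw [Prod.mk.injEq, Equiv.symm_apply_eq, hv]
    refine ⟨?_, ht.2⟩
    rw [ht.1]
    have h0 : s + s = 0 := zmod2_add_self s
    rw [add_assoc, h0, add_zero]

theorem cl2_move (δ : Fin (3 * N) → A5) (c : Fin M) (a s : Fin 3 → ZMod 2)
    (h : ∀ i, δ (idx (i, ν c i)) = tr (s i) 0) :
    actC e δ (cl2 ν e c a) = cl2 ν e c (a + s) := by
  apply Subtype.ext
  ext ⟨v, b⟩
  unfold actC
  rw [mem_ren', mem_cl2, mem_cl2]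
  refine exists_congr fun i => ?_
  rw [Prod.mk.injEq, Prod.mk.injEq, Equiv.symm_apply_eq, vr_move e δ _ (s i) _ (h i)]
  rfl

/-- a clause with a literal in a block which is not fixed as a set is moved -/
theorem cl1_moved (p : Fin 3 × Fin N) :
    actC e (Pi.mulSingle (idx p) rot) (cl1 e p) ≠ cl1 e p := by
  intro h
  have h1 : (vr e p 0, true) ∈ (cl1 e p).1 := (mem_cl1 e p _).2 ⟨0, rfl⟩
  have h2 : (vr e p 1, true) ∈ (cl1 e p).1 := (mem_cl1 e p _).2 ⟨1, rfl⟩
  have h3 := (mem_ren (blockPerm e (fun i => ((Pi.mulSingle (idx p) rot : Fin (3 * N) → A5) i :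
    Equiv.Perm (Fin 5)))) (cl1 e p) (vr e p 1) true).2 h2
  change _ ∈ (actC e (Pi.mulSingle (idx p) rot) (cl1 e p)).1 at h3
  rw [h, mem_cl1] at h3
  obtain ⟨t, ht⟩ := h3
  rw [Prod.mk.injEq] at ht
  have h4 := ht.1
  unfold vr at h4
  rw [blockPerm_apply] at h4
  have h5 := e.injective h4
  rw [Prod.mk.injEq] at h5
  have h6 := h5.2
  simp only [Pi.mulSingle_eq_same] at h6
  have h7 : ∀ t : ZMod 2, rot.1 (pt 1) ≠ pt t := by decide
  exact h7 t h6

theorem cl2_moved (c : Fin M) (a : Fin 3 → ZMod 2) (i : Fin 3) :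
    actC e (Pi.mulSingle (idx (i, ν c i)) rot) (cl2 ν e c a) ≠ cl2 ν e c a := by
  intro h
  set p := ((i, ν c i) : Fin 3 × Fin N) with hp
  have h2 : (vr e p (a i), false) ∈ (cl2 ν e c a).1 := (mem_cl2 ν e c a _).2 ⟨i, rfl⟩
  have h3 := (mem_ren (blockPerm e (fun i => ((Pi.mulSingle (idx p) rot : Fin (3 * N) → A5) i :
    Equiv.Perm (Fin 5)))) (cl2 ν e c a) (vr e p (a i)) false).2 h2
  change _ ∈ (actC e (Pi.mulSingle (idx p) rot) (cl2 ν e c a)).1 at h3
  rw [h, mem_cl2] at h3
  obtain ⟨j, hj⟩ := h3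
  rw [Prod.mk.injEq] at hj
  have h4 := hj.1
  unfold vr at h4
  rw [blockPerm_apply] at h4
  have h5 := e.injective h4
  rw [Prod.mk.injEq] at h5
  have h7 := idx.injective h5.1
  rw [hp, Prod.mk.injEq] at h7
  have h6 := h5.2
  simp only [Pi.mulSingle_eq_same] at h6
  rw [← h7.1] at h6
  exact rot_ne _ h6

/-- the family of local isomorphisms -/
def Fam (r : ℕ) (X : Finset (Fin (3 * N))) (δ : Fin (3 * N) → A5) : Prop :=
  ∃ a, GoodOn ν (Dc 3) β r (X.map idx.symm.toEmbedding) a ∧
    ∀ p, idx p ∈ X → δ (idx p) = tr (a p) 0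

theorem mem_mapX {X : Finset (Fin (3 * N))} {p : Fin 3 × Fin N} :
    p ∈ X.map idx.symm.toEmbedding ↔ idx p ∈ X := by
  rw [mem_map]
  constructor
  · rintro ⟨j, hj, rfl⟩
    simpa using hj
  · intro h
    exact ⟨idx p, h, by simp⟩

theorem fam_single {r : ℕ} (hr : 1 ≤ r) {X : Finset (Fin (3 * N))}
    {a : Fin 3 × Fin N → ZMod 2} (ha : GoodOn ν (Dc 3) β r (X.map idx.symm.toEmbedding) a)
    (c : Fin M) (hc : ∀ i, idx (i, ν c i) ∈ X) : ∑ i, a (i, ν c i) = ∑ i, β c i := by
  refine GoodOn.single (X := {c}) (ha.mono ?_) hr c (mem_singleton_self c)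
  intro p hp
  simp only [vs, singleton_biUnion, mem_image, mem_univ, true_and] at hp
  obtain ⟨i, rfl⟩ := hp
  exact mem_mapX.2 (hc i)

theorem locally_sat {r K : ℕ}
    (hν : ∀ Q : Finset (Fin M), Q.Nonempty → Q.card ≤ r →
      (5 * 3 - 7) * Q.card < 5 * (Q.biUnion fun c => univ.image (ν c)).card)
    (hr : 1 ≤ r) (hK : 10 * K ≤ r) :
    Locally (actC e) (fm ν 0 e) (fm ν β e) K (Fam ν β r) := by
  classical
  obtain ⟨hbase, hext⟩ := Pool.Agent.W324.SY.main 3 N M r ν (Dc 3) β le_rfl hν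
    (fun h hD h0 => Dc_weight le_rfl h hD h0)
  constructor
  · exact ⟨0, by rw [map_empty]; exact hbase 0, fun p hp => absurd hp (notMem_empty _)⟩
  · rintro X δ ⟨a, ha, hδ⟩ hX j hj
    obtain ⟨a', ha', hag⟩ := hext (X.map idx.symm.toEmbedding) a (idx.symm j) ha (by
      rw [card_map]; omega)
    refine ⟨Function.update δ j (tr (a' (idx.symm j)) 0), ⟨a', ?_, ?_⟩, ?_⟩
    · have : (insert j X).map idx.symm.toEmbedding =
          insert (idx.symm j) (X.map idx.symm.toEmbedding) := by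
        rw [map_insert]; rfl
      rw [this]
      exact ha'
    · intro p hp
      by_cases hpj : idx p = j
      · subst hpj
        rw [Function.update_self, Equiv.symm_apply_apply]
      · rw [Function.update_of_ne hpj]
        have hpX : idx p ∈ X := (mem_insert.1 hp).resolve_left hpj
        rw [hδ p hpX, hag p (mem_mapX.2 hpX)]
    · intro i hi
      rw [Function.update_of_ne]
      rintro rfl
      exact hj hi
  · rintro X X' δ hXX ⟨a, ha, hδ⟩
    exact ⟨a, ha.mono (map_subset_map.2 hXX), fun p hp => hδ p (hXX hp)⟩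
  · rintro X δ δ' hδδ ⟨a, ha, hδ⟩
    exact ⟨a, ha, fun p hp => by rw [← hδδ _ hp, hδ p hp]⟩
  · rintro X δ c ⟨a, ha, hδ⟩ hc
    -- blocks that move a clause and its image
    have conj : ∀ j, (∃ π : A5, actC e (Pi.mulSingle j π) (actC e δ c) ≠ actC e δ c) →
        j ∈ X := by
      rintro j ⟨π, hπ⟩
      refine hc j ⟨(δ j)⁻¹ * π * δ j, fun h => hπ ?_⟩
      have e1 : Pi.mulSingle j π * δ = δ * Pi.mulSingle j ((δ j)⁻¹ * π * δ j) := by
        funext k
        by_cases hk : k = j
        · subst hk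
          simp [mul_assoc]
        · simp [Pi.mulSingle_eq_of_ne hk]
      have h3 := congrArg (fun q => actC e q c) e1
      simp only [actC_mul, Function.comp_apply] at h3
      rw [h3, h]
    have hinv : actC e δ⁻¹ (actC e δ c) = c := by
      rw [← Function.comp_apply (f := actC e δ⁻¹), ← actC_mul, inv_mul_cancel, actC_one]
      rfl
    have key : InF ν 0 e c ↔ InF ν β e (actC e δ c) := by
      constructor
      · rintro (⟨p, rfl⟩ | ⟨k, b, hb, rfl⟩)
        · have hp : idx p ∈ X := hc _ ⟨rot, cl1_moved e p⟩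
          rw [cl1_move e δ p _ (hδ p hp)]
          exact Or.inl ⟨p, rfl⟩
        · have hp : ∀ i, idx (i, ν k i) ∈ X := fun i => hc _ ⟨rot, cl2_moved ν e k b i⟩
          rw [cl2_move ν e δ k b (fun i => a (i, ν k i)) (fun i => hδ _ (hp i))]
          refine Or.inr ⟨k, _, ?_, rfl⟩
          simp only [Pi.add_apply, sum_add_distrib]
          rw [fam_single ν β hr ha k hp]
          simp only [Pi.zero_apply, sum_const_zero] at hb
          intro h
          exact hb (by linear_combination h)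
      · rintro (⟨p, hp⟩ | ⟨k, b, hb, hp⟩)
        · have hpX : idx p ∈ X := conj _ ⟨rot, by rw [hp]; exact cl1_moved e p⟩
          left
          refine ⟨p, ?_⟩
          rw [← hinv, hp]
          refine cl1_move e _ p (a p) ?_
          rw [Pi.inv_apply, hδ p hpX, tr_inv]
        · have hpX : ∀ i, idx (i, ν k i) ∈ X := fun i =>
            conj _ ⟨rot, by rw [hp]; exact cl2_moved ν e k b i⟩
          right
          refine ⟨k, b + fun i => a (i, ν k i), ?_, ?_⟩
          · simp only [Pi.add_apply, sum_add_distrib]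
            rw [fam_single ν β hr ha k hpX]
            simp only [Pi.zero_apply, sum_const_zero]
            intro h
            apply hb
            have h0 := zmod2_add_self (∑ i, β k i)
            linear_combination h - h0
          · rw [← hinv, hp]
            refine cl2_move ν e _ k b _ fun i => ?_
            rw [Pi.inv_apply, hδ _ (hpX i), tr_inv]
    unfold fm
    exact decide_eq_decide.2 key

/-- the formula of the homogeneous system is satisfiable -/
theorem sat_zero : Sat (fm ν 0 e) := by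
  classical
  refine ⟨fun v => decide (∃ p, v = vr e p 0), fun c hc => ?_⟩
  unfold fm at hc
  rcases of_decide_eq_true hc with ⟨p, rfl⟩ | ⟨k, b, hb, rfl⟩
  · exact ⟨(vr e p 0, true), (mem_cl1 e p _).2 ⟨0, rfl⟩, decide_eq_true ⟨p, rfl⟩⟩
  · simp only [Pi.zero_apply, sum_const_zero] at hb
    obtain ⟨i, hi⟩ : ∃ i, b i ≠ 0 := by
      by_contra hcon
      push Not at hcon
      exact hb (sum_eq_zero fun i _ => hcon i)
    refine ⟨(vr e (i, ν k i) (b i), false), (mem_cl2 ν e k b _).2 ⟨i, rfl⟩, ?_⟩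
    simp only [decide_eq_false_iff_not]
    rintro ⟨p, hp⟩
    exact hi (vr_inj e hp).2

/-- the formula of an inconsistent system is not satisfiable -/
theorem unsat_of {β : Fin M → Fin 3 → ZMod 2}
    (hβ : ∀ a : Fin 3 × Fin N → ZMod 2, ∃ c, ∑ i, a (i, ν c i) ≠ ∑ i, β c i) :
    ¬ Sat (fm ν β e) := by
  classical
  rintro ⟨A, hA⟩
  have h1 : ∀ p, ∃ t : ZMod 2, A (vr e p t) = true := by
    intro p
    obtain ⟨l, hl, hl'⟩ := hA (cl1 e p) (by unfold fm; exact decide_eq_true (Or.inl ⟨p, rfl⟩))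
    obtain ⟨t, rfl⟩ := (mem_cl1 e p l).1 hl
    exact ⟨t, hl'⟩
  choose a ha using h1
  obtain ⟨c, hc⟩ := hβ a
  obtain ⟨l, hl, hl'⟩ := hA (cl2 ν e c fun i => a (i, ν c i)) (by
    unfold fm; exact decide_eq_true (Or.inr ⟨c, _, hc, rfl⟩))
  obtain ⟨i, rfl⟩ := (mem_cl2 ν e c _ l).1 hl
  simp only [ha] at hl'
  exact absurd hl' (by decide)

end

theorem BSym.restrict {m n s M : ℕ} {R : Type} {e : Fin m × Fin 5 ↪ Fin n} {C : Net (Cl n) R s}
    (h : BSym e C) (hM : M ≤ m) :
    BSym (((Fin.castLEEmb hM).prodMap (Function.Embedding.refl (Fin 5))).trans e) C := by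
  intro γ hγ
  set γ' : Fin m → Equiv.Perm (Fin 5) := fun i => if hi : i.1 < M then γ ⟨i.1, hi⟩ else 1 with hγ'
  obtain ⟨α, hα⟩ := h γ' (fun i => by
    rw [hγ']
    simp only
    split_ifs
    · exact hγ _
    · exact one_mem _)
  refine ⟨α, ?_⟩
  have : blockPerm e γ' =
      blockPerm (((Fin.castLEEmb hM).prodMap (Function.Embedding.refl (Fin 5))).trans e) γ := by
    ext z
    congr 1
    by_cases hz : z ∈ Set.range e
    · obtain ⟨⟨c, k⟩, rfl⟩ := hz
      rw [blockPerm_apply]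
      by_cases hc : c.1 < M
      · have e1 : e (c, k) = (((Fin.castLEEmb hM).prodMap
            (Function.Embedding.refl (Fin 5))).trans e) (⟨c.1, hc⟩, k) := rfl
        rw [e1, blockPerm_apply, hγ']
        simp only [hc, dif_pos]
        rfl
      · rw [blockPerm_of_notMem]
        · rw [hγ']
          simp only [hc, dif_neg, not_false_eq_true, Equiv.Perm.coe_one, id]
        · rintro ⟨⟨c', k'⟩, hck⟩
          have := e.injective hck
          rw [Prod.mk.injEq] at this
          apply hc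
          rw [← this.1]
          exact c'.2
    · rw [blockPerm_of_notMem e _ hz, blockPerm_of_notMem]
      rintro ⟨⟨c', k'⟩, hck⟩
      exact hz ⟨_, hck⟩
  rw [this] at hα
  exact hα

/-- **The lower bound.** A network with values in `R`, which reads the indicator vector of a 3-CNF
through `b`, accepts if the value at the output is in `acc`, and is symmetric under the even
permutations of `m` blocks, has at least `2 ^ (m / K)` gates. -/
theorem lower : ∃ K : ℕ, 0 < K ∧ ∀ (n m s : ℕ) (R : Type) (b : Bool → R) (acc : Set R)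
    (e : Fin m × Fin 5 ↪ Fin n) (C : Net (Cl n) R s), BSym e C →
    (∀ x : Cl n → Bool, C.val (fun c => b (x c)) C.out ∈ acc ↔ Sat x) → 2 ^ (m / K) ≤ s := by
  classical
  obtain ⟨K, hK, hexp⟩ := Pool.Agent.W45.SYExp.main 3 4 (by norm_num) (by norm_num)
  refine ⟨400 * K, by positivity, ?_⟩
  intro n m s R b acc e C hsym hC
  by_contra hcon
  push Not at hcon
  have hs1 : 1 ≤ s := by have := C.out.2; omega
  obtain ⟨κ, hκ⟩ : ∃ κ, m / (400 * K) = κ + 1 := by
    rcases Nat.eq_zero_or_pos (m / (400 * K)) with h | h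
    · rw [h] at hcon; simp at hcon; omega
    · exact ⟨m / (400 * K) - 1, by omega⟩
  rw [hκ] at hcon
  have hm : 400 * K * (κ + 1) ≤ m := by
    rw [← hκ]; exact Nat.mul_div_le _ _
  set N := m / 3 with hN
  have h3N : 3 * N ≤ m := by omega
  have hKpos : 1 ≤ K * (κ + 1) := Nat.mul_pos hK (by omega)
  have hm400 : 400 * (K * (κ + 1)) ≤ m := by rw [← mul_assoc]; exact hm
  have hN0 : 0 < N := by omega
  set r := 40 * (κ + 1) with hr
  have hKr : K * r ≤ N := by
    have : K * r = 40 * (K * (κ + 1)) := by rw [hr]; ring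
    omega
  obtain ⟨ν, hν⟩ := hexp N (3 * N + 1) r hN0 (by omega) hKr
  obtain ⟨β, hβ⟩ := exists_unsat ν (by omega)
  set e' : Fin (3 * N) × Fin 5 ↪ Fin n :=
    ((Fin.castLEEmb h3N).prodMap (Function.Embedding.refl (Fin 5))).trans e with he'
  have hsym' : BSym e' C := hsym.restrict h3N
  have hL := locally_sat (K := 4 * κ) ν β e' hν (by omega) (by omega)
  have hL' : Locally (actC e') (fun c => b (fm ν 0 e' c)) (fun c => b (fm ν β e' c)) (4 * κ)
      (Fam ν β r) :=
    ⟨hL.base, hL.ext, hL.mono, hL.congr, fun X δ c h1 h2 => congrArg b (hL.inp X δ c h1 h2)⟩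
  have hX := Pool.Agent.X131.SY.t_sup (Cl n) R A5
    (commutator_alternatingGroup_eq_top (by simp)) (3 * N) s κ C (actC e') (actC_one e')
    (actC_mul e') hsym'.act hcon
  have heq := core (actC_mul e') hL' C κ hsym'.act hX le_rfl
  have h1 := (hC (fm ν 0 e')).2 (sat_zero ν e')
  rw [heq] at h1
  exact unsat_of ν e' hβ ((hC (fm ν β e')).1 h1)

end Pool.Agent.J4H64.SS
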