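import Pool.Agent.J4H64.SS.Circ

set_option autoImplicit false

/-! Making circuits symmetric by copies, and the symmetric form of Hypothesis H. -/

namespace Pool.Agent.J4H64.SS

open Finset Pool.Agent.W893.SY

namespace Circ

variable {I : Type}

section

variable {G : Type} [Group G] [Fintype G] (act : G → Equiv.Perm I) (C : Circ I)

/-- numbering of the gates of the copies -/
noncomputable def num : Fin C.m × G ≃ Fin (C.m * Fintype.card G) :=
  (Equiv.prodCongr (Equiv.refl _) (Fintype.equivFin G)).trans finProdFinEquiv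

omit [Group G] in
theorem num_lt {j k : Fin C.m} (h : k < j) (a b : G) :
    (num C (G := G) (k, a)).1 < (num C (G := G) (j, b)).1 := by
  have e1 : ∀ (j : Fin C.m) (a : G), (num C (G := G) (j, a)).1 =
      (Fintype.equivFin G a).1 + Fintype.card G * j.1 := fun j a => rfl
  rw [e1, e1]
  have h1 := (Fintype.equivFin G a).2
  have h2 : Fintype.card G * (k.1 + 1) ≤ Fintype.card G * j.1 :=
    Nat.mul_le_mul_left _ h
  rw [Nat.mul_succ] at h2
  omega

/-- the gate of the copy `a` -/
noncomputable def cp (a : G) : Fin C.m ↪ Fin (C.m * Fintype.card G + 1) where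
  toFun j := (num C (G := G) (j, a)).castSucc
  inj' := by
    intro j k h
    have := (num C (G := G)).injective (Fin.castSucc_injective _ h)
    exact (Prod.mk.inj this).1

/-- copies with renamed inputs, and an OR gate -/
@[reducible] noncomputable def sym : Circ I where
  m := C.m * Fintype.card G + 1
  kind g := if h : g.1 < C.m * Fintype.card G then C.kind ((num C (G := G)).symm ⟨g.1, h⟩).1
    else 0
  predIn g := if h : g.1 < C.m * Fintype.card G then
      (C.predIn ((num C (G := G)).symm ⟨g.1, h⟩).1).map
        (act ((num C (G := G)).symm ⟨g.1, h⟩).2).toEmbedding else ∅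
  predG g := if h : g.1 < C.m * Fintype.card G then
      (C.predG ((num C (G := G)).symm ⟨g.1, h⟩).1).map
        (cp C ((num C (G := G)).symm ⟨g.1, h⟩).2) else
      univ.image fun a : G => cp C a C.o
  o := Fin.last _
  acyclic := by
    classical
    intro g k hk
    split_ifs at hk with h
    · obtain ⟨⟨j, a⟩, hja⟩ := (num C (G := G)).surjective ⟨g.1, h⟩
      rw [← hja, Equiv.symm_apply_apply] at hk
      obtain ⟨k', hk', rfl⟩ := mem_map.1 hk
      have h1 := num_lt C (G := G) (C.acyclic j k' hk') a a
      rw [hja] at h1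
      exact h1
    · obtain ⟨a, _, rfl⟩ := mem_image.1 hk
      have h1 : ((cp C a) C.o).1 < C.m * Fintype.card G := (num C (G := G) (C.o, a)).2
      show ((cp C a) C.o).1 < g.1
      omega

omit [Group G] in
theorem cp_lt (a : G) (j : Fin C.m) : (cp C a j).1 < C.m * Fintype.card G :=
  (num C (G := G) (j, a)).2

omit [Group G] in
theorem cp_num (a : G) (j : Fin C.m) :
    (num C (G := G)).symm ⟨(cp C a j).1, cp_lt C a j⟩ = (j, a) := by
  have : (⟨(cp C a j).1, cp_lt C a j⟩ : Fin (C.m * Fintype.card G)) = num C (G := G) (j, a) := rfl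
  rw [this, Equiv.symm_apply_apply]

theorem sym_kind (a : G) (j : Fin C.m) : (sym act C).kind (cp C a j) = C.kind j := by
  simp only [sym, cp_lt, dif_pos, cp_num]

theorem sym_predIn (a : G) (j : Fin C.m) :
    (sym act C).predIn (cp C a j) = (C.predIn j).map (act a).toEmbedding := by
  simp only [sym, cp_lt, dif_pos, cp_num]

theorem sym_predG (a : G) (j : Fin C.m) :
    (sym act C).predG (cp C a j) = (C.predG j).map (cp C a) := by
  simp only [sym, cp_lt, dif_pos, cp_num]

theorem sym_o : (sym act C).kind (sym act C).o = 0 ∧ (sym act C).predIn (sym act C).o = ∅ ∧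
    (sym act C).predG (sym act C).o = univ.image fun a : G => cp C a C.o := by
  have h : ¬ (Fin.last (C.m * Fintype.card G)).1 < C.m * Fintype.card G := by
    rw [Fin.val_last]; omega
  simp only [sym, h, dif_neg, not_false_eq_true, and_self]

theorem sym_cases (g : Fin (sym act C).m) :
    (∃ a j, g = cp C a j) ∨ g = (sym act C).o := by
  by_cases h : g.1 < C.m * Fintype.card G
  · left
    obtain ⟨⟨j, a⟩, hja⟩ := (num C (G := G)).surjective ⟨g.1, h⟩
    refine ⟨a, j, ?_⟩
    apply Fin.ext
    show g.1 = (num C (G := G) (j, a)).1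
    rw [hja]
  · right
    apply Fin.ext
    have h1 : g.1 < C.m * Fintype.card G + 1 := g.2
    show g.1 = C.m * Fintype.card G
    omega

theorem sym_wf (h : C.WF) : (sym act C).WF := by
  classical
  constructor
  · intro g hg
    rcases sym_cases act C g with ⟨a, j, rfl⟩ | rfl
    · rw [sym_kind] at hg
      rw [sym_predIn, sym_predG, card_map, card_map]
      exact h.1 j hg
    · rw [(sym_o act C).1] at hg
      exact absurd hg (by decide)
  · intro g
    rcases sym_cases act C g with ⟨a, j, rfl⟩ | rfl
    · rw [sym_predIn, sym_predG, card_map, card_map]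
      exact h.2 j
    · rw [(sym_o act C).2.1, (sym_o act C).2.2, card_empty, zero_add]
      exact card_pos.2 ⟨cp C 1 C.o, mem_image.2 ⟨1, mem_univ _, rfl⟩⟩

theorem sym_depth {d : ℕ} (h : C.Depth d) : (sym act C).Depth (d + 1) := by
  classical
  obtain ⟨lvl, h1, h2, h3⟩ := h
  let L : Fin (sym act C).m → ℕ := fun g => if h : g.1 < C.m * Fintype.card G then
    lvl ((num C (G := G)).symm ⟨g.1, h⟩).1 else lvl C.o + 1
  have hL : ∀ a j, L (cp C a j) = lvl j := by
    intro a j
    simp only [L, cp_lt, dif_pos, cp_num]
  have hLo : L (sym act C).o = lvl C.o + 1 := by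
    have h : ¬ (Fin.last (C.m * Fintype.card G)).1 < C.m * Fintype.card G := by
      rw [Fin.val_last]; omega
    simp only [L, sym, h, dif_neg, not_false_eq_true]
  refine ⟨L, ?_, ?_, ?_⟩
  · intro g
    rcases sym_cases act C g with ⟨a, j, rfl⟩ | rfl
    · rw [hL]; exact h1 j
    · rw [hLo]; omega
  · intro g k hk
    rcases sym_cases act C g with ⟨a, j, rfl⟩ | rfl
    · rw [sym_predG] at hk
      obtain ⟨k', hk', rfl⟩ := mem_map.1 hk
      rw [hL, hL]
      exact h2 j k' hk'
    · rw [(sym_o act C).2.2] at hk
      obtain ⟨a, _, rfl⟩ := mem_image.1 hk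
      rw [hL, hLo]
  · rw [hLo]; omega

theorem sym_acc (x : I → Bool) :
    (sym act C).Acc x ↔ ∃ a, C.Acc (x ∘ act a) := by
  classical
  constructor
  · rintro ⟨v, hv, ho⟩
    obtain ⟨s1, s2, s3⟩ := sym_o act C
    have h1 := ((hv (sym act C).o).1 s1).1 ho
    rw [s2, s3] at h1
    rcases h1 with ⟨i, hi, _⟩ | ⟨k, hk, hk'⟩
    · exact absurd hi (notMem_empty i)
    · obtain ⟨a, _, rfl⟩ := mem_image.1 hk
      refine ⟨a, fun j => v (cp C a j), fun j => ?_, hk'⟩
      have h2 := hv (cp C a j)
      rw [sym_kind, sym_predIn, sym_predG] at h2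
      simpa only [mem_map, exists_exists_and_eq_and, forall_exists_index, and_imp,
        forall_apply_eq_imp_iff₂, Function.comp_apply, Equiv.coe_toEmbedding] using h2
  · rintro ⟨a, v0, hv0, ho⟩
    -- valuations of all copies
    have hall : ∀ b : G, ∃ v : Fin C.m → Bool, C.Val (x ∘ act b) v ∧ (b = a → v = v0) := by
      intro b
      by_cases hb : b = a
      · subst hb
        exact ⟨v0, hv0, fun _ => rfl⟩
      · -- existence of a valuation, by recursion
        have hex : ∃ v : Fin C.m → Bool, C.Val (x ∘ act b) v := by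
          let F : (j : Fin C.m) → ((k : Fin C.m) → k < j → Bool) → Bool := fun j w =>
            if C.kind j = 0 then decide ((∃ i ∈ C.predIn j, (x ∘ act b) i = true) ∨
                ∃ k, ∃ hk : k ∈ C.predG j, w k (C.acyclic j k hk) = true)
            else if C.kind j = 1 then decide ((∀ i ∈ C.predIn j, (x ∘ act b) i = true) ∧
                ∀ k, ∀ hk : k ∈ C.predG j, w k (C.acyclic j k hk) = true)
            else decide (¬ ((∀ i ∈ C.predIn j, (x ∘ act b) i = true) ∧
                ∀ k, ∀ hk : k ∈ C.predG j, w k (C.acyclic j k hk) = true))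
          let v : Fin C.m → Bool := fun j => WellFounded.fix (C := fun _ => Bool)
            (wellFounded_lt (α := Fin C.m)) F j
          have hfix : ∀ j, v j = F j (fun k _ => v k) := fun j =>
            WellFounded.fix_eq _ _ _
          refine ⟨v, fun j => ⟨fun hk => ?_, fun hk => ?_, fun hk => ?_⟩⟩
          · rw [hfix j]
            simp only [F, hk, if_true, decide_eq_true_eq, exists_prop]
          · rw [hfix j]
            have h0 : ¬ (1 : Fin 3) = 0 := by decide
            simp only [F, hk, h0, if_false, if_true, decide_eq_true_eq]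
          · rw [hfix j]
            have h0 : ¬ (2 : Fin 3) = 0 := by decide
            have h1 : ¬ (2 : Fin 3) = 1 := by decide
            simp only [F, hk, h0, h1, if_false, decide_eq_true_eq]
        obtain ⟨v, hv⟩ := hex
        exact ⟨v, hv, fun h => absurd h hb⟩
    choose w hw1 hw2 using hall
    let V : Fin (sym act C).m → Bool := fun g => if h : g.1 < C.m * Fintype.card G then
      w ((num C (G := G)).symm ⟨g.1, h⟩).2 ((num C (G := G)).symm ⟨g.1, h⟩).1 else true
    have hV : ∀ b j, V (cp C b j) = w b j := by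
      intro b j
      simp only [V, cp_lt, dif_pos, cp_num]
    have hVo : V (sym act C).o = true := by
      have h : ¬ (Fin.last (C.m * Fintype.card G)).1 < C.m * Fintype.card G := by
        rw [Fin.val_last]; omega
      simp only [V, sym, h, dif_neg, not_false_eq_true]
    refine ⟨V, fun g => ?_, hVo⟩
    rcases sym_cases act C g with ⟨b, j, rfl⟩ | rfl
    · rw [sym_kind, sym_predIn, sym_predG]
      have h2 := hw1 b j
      simp only [mem_map, exists_exists_and_eq_and, forall_exists_index, and_imp,
        forall_apply_eq_imp_iff₂, hV]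
      exact h2
    · obtain ⟨s1, s2, s3⟩ := sym_o act C
      rw [s1, s2, s3]
      refine ⟨fun _ => ?_, fun h => absurd h (by decide), fun h => absurd h (by decide)⟩
      refine ⟨fun _ => Or.inr ⟨cp C a C.o, mem_image.2 ⟨a, mem_univ _, rfl⟩, ?_⟩, fun _ => hVo⟩
      rw [hV, hw2 a rfl]
      exact ho

/-- the automorphism given by `b` -/
noncomputable def rot' (b : G) : Equiv.Perm (Fin (sym act C).m) :=
  let e : Fin (C.m * Fintype.card G) ≃ Fin (C.m * Fintype.card G) :=
    ((num C (G := G)).symm.trans (Equiv.prodCongr (Equiv.refl _) (Equiv.mulLeft b))).trans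
      (num C (G := G))
  { toFun := Fin.lastCases (Fin.last _) (fun g => (e g).castSucc)
    invFun := Fin.lastCases (Fin.last _) (fun g => (e.symm g).castSucc)
    left_inv := by
      intro g
      refine Fin.lastCases ?_ (fun g => ?_) g
      · simp
      · simp
    right_inv := by
      intro g
      refine Fin.lastCases ?_ (fun g => ?_) g
      · simp
      · simp }

theorem rot_cp (b a : G) (j : Fin C.m) : rot' act C b (cp C a j) = cp C (b * a) j := by
  show Fin.lastCases (motive := fun _ => Fin (C.m * Fintype.card G + 1)) (Fin.last _) _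
    ((num C (G := G) (j, a)).castSucc) = _
  rw [Fin.lastCases_castSucc]
  simp only [Equiv.trans_apply, Equiv.symm_apply_apply, Equiv.prodCongr_apply, Prod.map_apply,
    Equiv.refl_apply, Equiv.coe_mulLeft]
  rfl

theorem rot_o (b : G) : rot' act C b (sym act C).o = (sym act C).o := by
  show Fin.lastCases (motive := fun _ => Fin (C.m * Fintype.card G + 1)) (Fin.last _) _
    (Fin.last _) = _
  rw [Fin.lastCases_last]

theorem sym_aut (hmul : ∀ a b : G, act (a * b) = act a * act b) (b : G) :
    (sym act C).IsAut (act b) (rot' act C b) := by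
  classical
  refine ⟨fun g => ?_, rot_o act C b⟩
  rcases sym_cases act C g with ⟨a, j, rfl⟩ | rfl
  · rw [rot_cp, sym_kind, sym_kind, sym_predIn, sym_predIn, sym_predG, sym_predG]
    refine ⟨rfl, ?_, ?_⟩
    · rw [map_map]
      congr 1
      ext i
      simp [hmul]
    · rw [map_map]
      congr 1
      refine Function.Embedding.ext fun j' => ?_
      exact (rot_cp act C b a j').symm
  · rw [rot_o]
    obtain ⟨s1, s2, s3⟩ := sym_o act C
    refine ⟨rfl, by rw [s2, map_empty], ?_⟩
    rw [s3]
    ext g
    simp only [mem_map, mem_image, mem_univ, true_and, Equiv.coe_toEmbedding]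
    constructor
    · rintro ⟨a, rfl⟩
      exact ⟨cp C (b⁻¹ * a) C.o, ⟨b⁻¹ * a, rfl⟩, by rw [rot_cp, mul_inv_cancel_left]⟩
    · rintro ⟨_, ⟨a, rfl⟩, rfl⟩
      exact ⟨b * a, by rw [rot_cp]⟩

end

end Circ

end Pool.Agent.J4H64.SS
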